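import Pool.Agent.Helper5.NE.Defs
import Pool.Agent.Helper49.KM.DIO

/-! # NE: part INT (short intervals and words) -/

open MeasureTheory Filter Topology

namespace Pool.Agent.Helper6.NE

open Pool.Agent.Helper5.KM Pool.Agent.Helper5.NE

variable {b : ℕ}

theorem int_words (hb : 2 ≤ b) (I : Set ℝ) (g : ℝ → ℝ) (c₀ : ℝ) (hc₀ : 0 < c₀)
    (hg : ∀ u ∈ I, ∀ v ∈ I, c₀ * |u - v| ≤ |g u - g v|) :
    ∃ C : ℝ, 0 ≤ C ∧ ∀ (K : ℕ) (c : ℝ), ∃ W : Finset (Fin K → Fin b), (W.card : ℝ) ≤ C ∧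
      ∀ y : Sq b, val y ∈ I → |g (val y) - c| ≤ 1 / (b : ℝ) ^ K → blk 0 K y ∈ W := by
  have hb0 : (0 : ℝ) < b := by exact_mod_cast (by omega : 0 < b)
  set R : ℤ := ⌈2 / c₀ + 1⌉ with hR
  have hR0 : 0 ≤ R := Int.ceil_nonneg (by positivity)
  refine ⟨((2 * R + 1 : ℤ) : ℝ), by exact_mod_cast (by linarith), fun K c => ?_⟩
  by_cases hY : ∃ y : Sq b, val y ∈ I ∧ |g (val y) - c| ≤ 1 / (b : ℝ) ^ K
  · obtain ⟨y₀, hy₀I, hy₀⟩ := hY
    set n₀ : ℤ := (Bk K y₀ : ℤ) with hn₀
    refine ⟨Finset.univ.filter fun w : Fin K → Fin b => (num w : ℤ) ∈ Finset.Icc (n₀ - R) (n₀ + R),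
      ?_, ?_⟩
    · have h1 : (Finset.univ.filter fun w : Fin K → Fin b =>
          (num w : ℤ) ∈ Finset.Icc (n₀ - R) (n₀ + R)).card ≤ (Finset.Icc (n₀ - R) (n₀ + R)).card := by
        refine Finset.card_le_card_of_injOn (fun w => (num w : ℤ)) ?_ ?_
        · intro w hw
          exact (Finset.mem_filter.1 (Finset.mem_coe.1 hw)).2
        · intro w _ w' _ hww
          have hww' : (num w : ℤ) = (num w' : ℤ) := hww
          exact Helper49.KM.num_inj (by exact_mod_cast hww')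
      have h2 : ((Finset.Icc (n₀ - R) (n₀ + R)).card : ℤ) = 2 * R + 1 := by
        rw [Int.card_Icc]
        rw [Int.toNat_of_nonneg (by linarith)]
        ring
      have h3 : (((Finset.univ.filter fun w : Fin K → Fin b =>
          (num w : ℤ) ∈ Finset.Icc (n₀ - R) (n₀ + R)).card : ℤ)) ≤ 2 * R + 1 := by
        rw [← h2]; exact_mod_cast h1
      exact_mod_cast h3
    · intro y hyI hy
      rw [Finset.mem_filter]
      refine ⟨Finset.mem_univ _, ?_⟩
      have e1 := pow_mul_val hb K y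
      have e2 := pow_mul_val hb K y₀
      have hbK : (0 : ℝ) < (b : ℝ) ^ K := by positivity
      have h1 : c₀ * |val y - val y₀| ≤ 2 / (b : ℝ) ^ K := by
        refine (hg _ hyI _ hy₀I).trans ?_
        have : g (val y) - g (val y₀) = (g (val y) - c) - (g (val y₀) - c) := by ring
        rw [this]
        refine (abs_sub _ _).trans ?_
        have : (2 : ℝ) / (b : ℝ) ^ K = 1 / (b : ℝ) ^ K + 1 / (b : ℝ) ^ K := by ring
        linarith
      have h2 : (b : ℝ) ^ K * |val y - val y₀| ≤ 2 / c₀ := by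
        rw [le_div_iff₀ hc₀]
        calc (b : ℝ) ^ K * |val y - val y₀| * c₀ = (b : ℝ) ^ K * (c₀ * |val y - val y₀|) := by ring
          _ ≤ (b : ℝ) ^ K * (2 / (b : ℝ) ^ K) := mul_le_mul_of_nonneg_left h1 hbK.le
          _ = 2 := by field_simp
      have h3 : |(Bk K y : ℝ) - Bk K y₀| ≤ 2 / c₀ + 1 := by
        have e3 : (Bk K y : ℝ) - Bk K y₀ = (b : ℝ) ^ K * (val y - val y₀) -
            (val (sh (K : ℤ) y) - val (sh (K : ℤ) y₀)) := by
          linear_combination -e1 + e2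
        rw [e3]
        refine (abs_sub _ _).trans ?_
        rw [abs_mul, abs_of_pos hbK]
        have h4 : |val (sh (K : ℤ) y) - val (sh (K : ℤ) y₀)| ≤ 1 := by
          rw [abs_le]
          have a1 := val_nonneg (sh (K : ℤ) y)
          have a2 := val_nonneg (sh (K : ℤ) y₀)
          have a3 := val_le_one hb (sh (K : ℤ) y)
          have a4 := val_le_one hb (sh (K : ℤ) y₀)
          constructor <;> linarith
        linarith
      have h5 : |(Bk K y : ℝ) - Bk K y₀| ≤ R := h3.trans (Int.le_ceil _)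
      rw [← Bk_eq_num, Finset.mem_Icc]
      rw [abs_le] at h5
      obtain ⟨h6, h7⟩ := h5
      have h8 : (-(R : ℝ)) ≤ (((Bk K y : ℤ) - n₀ : ℤ) : ℝ) := by
        rw [hn₀]; push_cast; exact h6
      have h9 : (((Bk K y : ℤ) - n₀ : ℤ) : ℝ) ≤ R := by
        rw [hn₀]; push_cast; exact h7
      have h8' : -R ≤ (Bk K y : ℤ) - n₀ := by exact_mod_cast h8
      have h9' : (Bk K y : ℤ) - n₀ ≤ R := by exact_mod_cast h9
      constructor <;> linarith
  · refine ⟨∅, ?_, ?_⟩
    · simp only [Finset.card_empty, Nat.cast_zero]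
      exact_mod_cast (by linarith : (0 : ℤ) ≤ 2 * R + 1)
    · intro y hyI hy
      exact absurd ⟨y, hyI, hy⟩ hY

end Pool.Agent.Helper6.NE
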