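import Pool.Agent.Helper5.NE.Defs

/-! # NE: part NULLW (few words carry no mass) -/

open MeasureTheory Filter Topology

namespace Pool.Agent.Helper6.NE

open Pool.Agent.Helper5.KM Pool.Agent.Helper5.NE

variable {b : ℕ}

theorem nullw {μ : Measure (Sq b)} [IsProbabilityMeasure μ]
    (hposd : ∃ (κ α : ℝ) (p : Fin b → Sq b → ℝ), 0 < κ ∧ κ < 1 ∧ 0 < α ∧
      (∀ d, Measurable[past b 0] (p d)) ∧ (∀ d y, 0 ≤ p d y ∧ p d y ≤ 1) ∧
      (∀ d, μ[({y : Sq b | y 0 = d}).indicator (fun _ => (1 : ℝ)) | past b 0] =ᵐ[μ] p d) ∧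
      ∀ᵐ y ∂μ, ∀ᶠ n : ℕ in atTop, α * n ≤
        (((Finset.range n).filter fun j : ℕ => p (y (j : ℤ)) (sh (j : ℤ) y) ≤ 1 - κ).card : ℝ))
    (hword : ∀ (κ α : ℝ), 0 < κ → κ < 1 → 0 < α →
      ∀ (p : Fin b → Sq b → ℝ), (∀ d, Measurable[past b 0] (p d)) →
      (∀ d y, 0 ≤ p d y ∧ p d y ≤ 1) →
      (∀ d, μ[({y : Sq b | y 0 = d}).indicator (fun _ => (1 : ℝ)) | past b 0] =ᵐ[μ] p d) →
      ∀ (n : ℕ) (w : Fin n → Fin b),
      μ.real {y | blk 0 n y = w ∧ α * n ≤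
        (((Finset.range n).filter fun j : ℕ => p (y (j : ℤ)) (sh (j : ℤ) y) ≤ 1 - κ).card : ℝ)} ≤
      (1 - κ) ^ (α * n)) :
    ∃ s : ℝ, 0 < s ∧ ∀ (C : ℝ) (C₀ K₀ : ℕ), 1 ≤ C₀ →
      ∀ W : (K' : ℕ) → Finset (Fin (C₀ * K') → Fin b),
        (∀ K', ((W K').card : ℝ) ≤ C * Real.exp (s * ((C₀ * K' : ℕ) : ℝ))) →
        μ {y | ∀ K' ≥ K₀, blk 0 (C₀ * K') y ∈ W K'} = 0 := by
  obtain ⟨κ, α, p, hκ0, hκ1, hα, hpm, hp1, hpc, hae⟩ := hposd
  have hw := hword κ α hκ0 hκ1 hα p hpm hp1 hpc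
  have h1κ : 0 < 1 - κ := by linarith
  have hlog : Real.log (1 - κ) < 0 := Real.log_neg h1κ (by linarith)
  set s : ℝ := α * (-Real.log (1 - κ)) / 2 with hs
  have hs0 : 0 < s := by
    rw [hs]; have : 0 < -Real.log (1 - κ) := by linarith
    positivity
  refine ⟨s, hs0, fun C C₀ K₀ hC₀ W hW => ?_⟩
  set cnt : ℕ → Sq b → ℕ := fun n y =>
    ((Finset.range n).filter fun j : ℕ => p (y (j : ℤ)) (sh (j : ℤ) y) ≤ 1 - κ).card with hcnt
  -- the pieces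
  have hpiece : ∀ n₁ : ℕ, μ {y | (∀ K' ≥ K₀, blk 0 (C₀ * K') y ∈ W K') ∧
      ∀ n ≥ n₁, α * n ≤ (cnt n y : ℝ)} = 0 := by
    intro n₁
    set S : Set (Sq b) := {y | (∀ K' ≥ K₀, blk 0 (C₀ * K') y ∈ W K') ∧
      ∀ n ≥ n₁, α * n ≤ (cnt n y : ℝ)} with hS
    have hbound : ∀ K' ≥ max K₀ n₁, μ.real S ≤ C * (Real.exp (-s)) ^ K' := by
      intro K' hK'
      have hK0 : K₀ ≤ K' := (le_max_left _ _).trans hK'
      have hn1 : n₁ ≤ C₀ * K' := ((le_max_right _ _).trans hK').trans (Nat.le_mul_of_pos_left _ hC₀)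
      have hKC : K' ≤ C₀ * K' := Nat.le_mul_of_pos_left _ hC₀
      set n := C₀ * K' with hn
      have hsub : S ⊆ ⋃ w ∈ W K', {y | blk 0 n y = w ∧ α * n ≤ (cnt n y : ℝ)} := by
        intro y hy
        simp only [Set.mem_iUnion, Set.mem_ofPred_eq, exists_prop]
        exact ⟨blk 0 n y, hy.1 K' hK0, rfl, hy.2 n hn1⟩
      have h1 : μ.real S ≤ ∑ w ∈ W K', μ.real {y | blk 0 n y = w ∧ α * n ≤ (cnt n y : ℝ)} :=
        (measureReal_mono hsub (measure_ne_top _ _)).trans (measureReal_biUnion_finset_le _ _)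
      have h2 : ∑ w ∈ W K', μ.real {y | blk 0 n y = w ∧ α * n ≤ (cnt n y : ℝ)} ≤
          (W K').card * (1 - κ) ^ (α * n) := by
        refine (Finset.sum_le_sum fun w _ => hw n w).trans ?_
        rw [Finset.sum_const, nsmul_eq_mul]
      have hC : 0 ≤ C := by
        have h3 := hW 0
        have h4 : (0 : ℝ) ≤ ((W 0).card : ℝ) := Nat.cast_nonneg _
        have h5 : 0 < Real.exp (s * ((C₀ * 0 : ℕ) : ℝ)) := Real.exp_pos _
        by_contra hneg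
        push Not at hneg
        nlinarith
      have h3 : (W K').card * (1 - κ) ^ (α * n) ≤ (C * Real.exp (s * (n : ℝ))) * (1 - κ) ^ (α * n) :=
        mul_le_mul_of_nonneg_right (hW K') (Real.rpow_nonneg h1κ.le _)
      have h4 : (C * Real.exp (s * (n : ℝ))) * (1 - κ) ^ (α * n) = C * Real.exp (-(s * n)) := by
        rw [Real.rpow_def_of_pos h1κ, mul_assoc, ← Real.exp_add]
        congr 2
        rw [hs]; ring
      have h5 : C * Real.exp (-(s * n)) ≤ C * (Real.exp (-s)) ^ K' := by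
        refine mul_le_mul_of_nonneg_left ?_ hC
        rw [← Real.exp_nat_mul]
        apply Real.exp_le_exp.2
        have : (K' : ℝ) ≤ n := by exact_mod_cast hKC
        nlinarith
      linarith
    have hlim : Tendsto (fun K' : ℕ => C * (Real.exp (-s)) ^ K') atTop (𝓝 (C * 0)) :=
      (tendsto_pow_atTop_nhds_zero_of_lt_one (Real.exp_pos _).le
        (by rw [Real.exp_lt_one_iff]; linarith)).const_mul C
    rw [mul_zero] at hlim
    have h0 : μ.real S ≤ 0 := by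
      refine ge_of_tendsto hlim ?_
      filter_upwards [eventually_ge_atTop (max K₀ n₁)] with K' hK'
      exact hbound K' hK'
    have h1 : μ.real S = 0 := le_antisymm h0 measureReal_nonneg
    exact (measureReal_eq_zero_iff (measure_ne_top _ _)).1 h1
  -- conclusion
  have hcov : {y | ∀ K' ≥ K₀, blk 0 (C₀ * K') y ∈ W K'} ⊆
      (⋃ n₁ : ℕ, {y | (∀ K' ≥ K₀, blk 0 (C₀ * K') y ∈ W K') ∧
        ∀ n ≥ n₁, α * n ≤ (cnt n y : ℝ)}) ∪
      {y | ¬ ∀ᶠ n : ℕ in atTop, α * n ≤ (cnt n y : ℝ)} := by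
    intro y hy
    by_cases hy2 : ∀ᶠ n : ℕ in atTop, α * n ≤ (cnt n y : ℝ)
    · left
      obtain ⟨n₁, hn₁⟩ := eventually_atTop.1 hy2
      exact Set.mem_iUnion.2 ⟨n₁, hy, hn₁⟩
    · right; exact hy2
  refine measure_mono_null hcov ?_
  rw [measure_union_null_iff]
  exact ⟨measure_iUnion_null hpiece, ae_iff.1 hae⟩

end Pool.Agent.Helper6.NE
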