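import Pool.Agent.Helper5.NE.Defs
import Pool.Agent.Helper44.KM.SHC
import Pool.Agent.Helper46.KM.AE

/-! # NE: part PSQ -/

open MeasureTheory Filter Topology

namespace Pool.Agent.Helper6.NE

open Pool.Agent.Helper5.KM Pool.Agent.Helper5.NE

variable {b : ℕ}

theorem ps_Qf (hb : 2 ≤ b) {μ : Measure (Sq b)} [IsProbabilityMeasure μ]
    (h : MeasurePreserving (sh 1) μ μ) (X : ℝ) (r : ℕ) (G : (Fin r → Fin b) → ℂ)
    (hG : ∀ w, ‖G w‖ ≤ 1) : ∃ q : Sq b → ℂ, StronglyMeasurable[past b 0] q ∧ (∀ y, ‖q y‖ ≤ 1) ∧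
      ∀ L : ℕ, Ps μ X r G L = ∫ y, ‖Qf μ X q L y‖ ∂μ := by
  obtain ⟨q, hqm, hq1, hq⟩ := Helper46.KM.condExp_PhiM hb h
    (fun f hf n k => Helper44.KM.condExp_sh h f hf n k) X r G hG
  refine ⟨q, hqm, hq1, fun L => ?_⟩
  unfold Ps
  refine integral_congr_ae ?_
  filter_upwards [hq L] with y hy
  rw [← hy]
  rfl

end Pool.Agent.Helper6.NE
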