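import Pool.Agent.Helper5.NE.Defs
import Pool.Agent.Helper44.KM.MOD

/-! # NE: part WLIM (the modulus converges to a function of the remote past) -/

open MeasureTheory Filter Topology

namespace Pool.Agent.Helper6.NE

open Pool.Agent.Helper5.KM Pool.Agent.Helper5.NE Pool.Agent.Helper44.KM

variable {b : ℕ}

theorem wlim {μ : Measure (Sq b)} [IsProbabilityMeasure μ] (h : MeasurePreserving (sh 1) μ μ)
    (X : ℝ) (q : Sq b → ℂ) (hq : StronglyMeasurable[past b 0] q) (hq1 : ∀ y, ‖q y‖ ≤ 1) :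
    ∃ w : Sq b → ℝ, (∀ n : ℕ, Measurable[past b (-(n : ℤ))] w) ∧ (∀ y, 0 ≤ w y ∧ w y ≤ 1) ∧
      Tendsto (fun l : ℕ => ∫ y, |‖Qf μ X q l (sh (-(l : ℤ)) y)‖ - w y| ∂μ) atTop (𝓝 0) := by
  have hst := h
  set a : ℕ → ℝ := fun l => ∫ y, ‖Qf μ X q l y‖ ^ 2 ∂μ with ha
  have hanti : Antitone a := by
    intro l m hlm
    obtain ⟨k, rfl⟩ := Nat.exists_eq_add_of_le hlm
    have h1 := pyth hst X q hq hq1 l k
    have h2 : 0 ≤ ∫ y, ‖e ((b : ℝ) ^ l * X * Bk k y) * Qf μ X q l (sh k y) -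
        Qf μ X q (l + k) y‖ ^ 2 ∂μ := integral_nonneg fun y => by positivity
    rw [h1] at h2
    simp only [ha]; linarith
  have ha0 : ∀ l, 0 ≤ a l := fun l => integral_nonneg fun y => by positivity
  obtain ⟨A, hA⟩ : ∃ A, Tendsto a atTop (𝓝 A) :=
    ⟨_, tendsto_atTop_ciInf hanti ⟨0, by rintro _ ⟨l, rfl⟩; exact ha0 l⟩⟩
  have hAle : ∀ l, A ≤ a l := fun l => hanti.le_of_tendsto hA l
  -- the shifted moduli
  set w : ℕ → Sq b → ℝ := fun l y => ‖Qf μ X q l (sh (-(l : ℤ)) y)‖ with hw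
  have hwm : ∀ l : ℕ, Measurable[past b (-(l : ℤ))] (w l) := by
    intro l
    have h1 := measurable_sh_past (b := b) (-(l : ℤ)) 0
    rw [zero_add] at h1
    have h2 : Measurable[past b 0] (fun y => ‖Qf μ X q l y‖) := (Qf_sm μ X q l).norm.measurable
    exact h2.comp h1
  have hwm' : ∀ l : ℕ, Measurable (w l) := fun l => (hwm l).mono (past_le _) le_rfl
  have hwb : ∀ l : ℕ, ∀ᵐ y ∂μ, ‖w l y‖ ≤ 1 := by
    intro l
    have h1 := (mp_sh hst (-(l : ℤ))).quasiMeasurePreserving.ae (Qf_norm_le X q hq1 l (μ := μ))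
    filter_upwards [h1] with y hy
    simp only [hw, norm_norm]; exact hy
  have hwi : ∀ l : ℕ, Integrable (w l) μ := fun l =>
    Integrable.of_bound (hwm' l).aestronglyMeasurable 1 (hwb l)
  have hdist : ∀ l k : ℕ, ∫ y, |w l y - w (l + k) y| ∂μ ≤ Real.sqrt (a l - a (l + k)) := by
    intro l k
    have hmp := mp_sh hst ((l + k : ℕ) : ℤ)
    have e1 : ∫ y, |w l (sh ((l + k : ℕ) : ℤ) y) - w (l + k) (sh ((l + k : ℕ) : ℤ) y)| ∂μ =
        ∫ y, |w l y - w (l + k) y| ∂μ :=
      hmp.integral_comp (shEquiv (b := b) _).measurableEmbedding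
        (fun y => |w l y - w (l + k) y|)
    rw [← e1]
    have e2 : ∀ y, |w l (sh ((l + k : ℕ) : ℤ) y) - w (l + k) (sh ((l + k : ℕ) : ℤ) y)| =
        |‖Qf μ X q l (sh k y)‖ - ‖Qf μ X q (l + k) y‖| := by
      intro y
      simp only [hw, sh_sh]
      have i1 : (-(l : ℤ)) + ((l + k : ℕ) : ℤ) = k := by push_cast; ring
      have i2 : (-((l + k : ℕ) : ℤ)) + ((l + k : ℕ) : ℤ) = 0 := by ring
      rw [i1, i2, sh_zero]
    simp only [e2]
    have hmk := mp_sh hst (k : ℤ)
    set f : Sq b → ℂ := fun y => e ((b : ℝ) ^ l * X * Bk k y) * Qf μ X q l (sh k y) -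
      Qf μ X q (l + k) y with hf
    have hfm : AEStronglyMeasurable f μ := by
      have h1 : AEStronglyMeasurable (fun y : Sq b => e ((b : ℝ) ^ l * X * Bk k y)) μ :=
        sm_of_past (n := k) (measurable_e.comp ((measurable_Bk k).const_mul _)).stronglyMeasurable μ
      have h2 : AEStronglyMeasurable (fun y : Sq b => Qf μ X q l (sh k y)) μ :=
        (Qf_int μ X q l).aestronglyMeasurable.comp_measurePreserving hmk
      exact (h1.mul h2).sub (Qf_int μ X q (l + k)).aestronglyMeasurable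
    have hfb : ∀ᵐ y ∂μ, ‖f y‖ ≤ 2 := by
      have h1 : ∀ᵐ y ∂μ, ‖Qf μ X q l (sh k y)‖ ≤ 1 :=
        hmk.quasiMeasurePreserving.ae (Qf_norm_le X q hq1 l)
      filter_upwards [h1, Qf_norm_le X q hq1 (l + k) (μ := μ)] with y hy hy2
      simp only [hf]
      refine (norm_sub_le _ _).trans ?_
      rw [norm_mul, norm_e, one_mul]; linarith
    have hfi : Integrable f μ := Integrable.of_bound hfm 2 hfb
    have hfi2 : Integrable (fun y => ‖f y‖ ^ 2) μ := by
      refine Integrable.of_bound (hfm.norm.pow 2) 4 ?_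
      filter_upwards [hfb] with y hy
      rw [norm_pow, norm_norm]
      nlinarith [norm_nonneg (f y)]
    have h3 : ∫ y, |‖Qf μ X q l (sh k y)‖ - ‖Qf μ X q (l + k) y‖| ∂μ ≤ ∫ y, |‖f y‖| ∂μ := by
      refine integral_mono_of_nonneg (ae_of_all _ fun y => abs_nonneg _) hfi.norm.abs
        (ae_of_all _ fun y => ?_)
      simp only [abs_norm]
      have h4 : ‖Qf μ X q l (sh k y)‖ = ‖e ((b : ℝ) ^ l * X * Bk k y) * Qf μ X q l (sh k y)‖ := by
        rw [norm_mul, norm_e, one_mul]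
      rw [h4]
      exact abs_norm_sub_norm_le _ _
    refine h3.trans ((int_abs_le_sqrt (fun y => ‖f y‖) hfm.norm hfi2).trans ?_)
    exact (congrArg Real.sqrt (pyth hst X q hq hq1 l k)).le
  -- the limit in L¹
  have hcau : CauchySeq fun l => (hwi l).toL1 (w l) := by
    refine cauchySeq_of_le_tendsto_0' (fun l => Real.sqrt (a l - A)) ?_ ?_
    · intro l m hlm
      obtain ⟨k, rfl⟩ := Nat.exists_eq_add_of_le hlm
      rw [dist_eq_norm, ← Integrable.toL1_sub, L1.norm_of_fun_eq_integral_norm]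
      refine (hdist l k).trans (Real.sqrt_le_sqrt ?_)
      linarith [hAle (l + k)]
    · have h1 : Tendsto (fun l => Real.sqrt (a l - A)) atTop (𝓝 (Real.sqrt (A - A))) :=
        (Real.continuous_sqrt.tendsto _).comp (hA.sub_const A)
      simpa using h1
  obtain ⟨W, hW⟩ := cauchySeq_tendsto_of_complete hcau
  have hWi : Tendsto (fun l => ∫ y, |w l y - W y| ∂μ) atTop (𝓝 0) := by
    have h1 := tendsto_iff_norm_sub_tendsto_zero.1 hW
    refine h1.congr fun l => ?_
    rw [L1.norm_eq_integral_norm]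
    refine integral_congr_ae ?_
    filter_upwards [Lp.coeFn_sub ((hwi l).toL1 (w l)) W, (hwi l).coeFn_toL1] with y hy1 hy2
    rw [hy1, Pi.sub_apply, hy2, Real.norm_eq_abs]
  obtain ⟨ns, hns, hae⟩ := (tendstoInMeasure_of_tendsto_Lp hW).exists_seq_tendsto_ae
  have hae2 : ∀ᵐ y ∂μ, Tendsto (fun i => w (ns i) y) atTop (𝓝 (W y)) := by
    have h1 : ∀ᵐ y ∂μ, ∀ l, ((hwi l).toL1 (w l) : Sq b → ℝ) y = w l y :=
      ae_all_iff.2 fun l => (hwi l).coeFn_toL1
    filter_upwards [hae, h1] with y hy1 hy2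
    simpa only [hy2] using hy1
  -- the tail-measurable version
  set v : Sq b → ENNReal := fun y => limsup (fun i => ENNReal.ofReal (w (ns i) y)) atTop with hv
  have hvn : ∀ n : ℕ, Measurable[past b (-(n : ℤ))] v := by
    intro n
    have h1 : v = fun y => limsup (fun i => ENNReal.ofReal (w (ns (i + n)) y)) atTop := by
      funext y
      exact (limsup_nat_add (fun i => ENNReal.ofReal (w (ns i) y)) n).symm
    rw [h1]
    refine Measurable.limsup (mδ := past b (-(n : ℤ))) fun i => ?_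
    have h2 : n ≤ ns (i + n) := (Nat.le_add_left n i).trans (hns.id_le _)
    have h3 : Measurable[past b (-(n : ℤ))] (w (ns (i + n))) :=
      (hwm (ns (i + n))).mono (past_mono (by omega)) le_rfl
    exact ENNReal.measurable_ofReal.comp h3
  have hvW : ∀ᵐ y ∂μ, v y = ENNReal.ofReal (W y) := by
    filter_upwards [hae2] with y hy
    exact ((ENNReal.continuous_ofReal.tendsto _).comp hy).limsup_eq
  have hW0 : ∀ᵐ y ∂μ, 0 ≤ W y := by
    filter_upwards [hae2] with y hy
    exact ge_of_tendsto' hy fun i => norm_nonneg _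
  have hW1 : ∀ᵐ y ∂μ, W y ≤ 1 := by
    have h1 : ∀ᵐ y ∂μ, ∀ l, ‖w l y‖ ≤ 1 := ae_all_iff.2 hwb
    filter_upwards [hae2, h1] with y hy hy1
    refine le_of_tendsto' hy fun i => ?_
    exact (le_abs_self _).trans (hy1 (ns i))
  refine ⟨fun y => min 1 (v y).toReal, fun n => ?_, fun y => ?_, ?_⟩
  · have h1 : Measurable[past b (-(n : ℤ))] (fun y => (v y).toReal) :=
      ENNReal.measurable_toReal.comp (hvn n)
    exact (@measurable_const _ _ _ (past b (-(n : ℤ))) (1 : ℝ)).min h1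
  · exact ⟨le_min zero_le_one ENNReal.toReal_nonneg, min_le_left _ _⟩
  · refine hWi.congr fun l => ?_
    refine integral_congr_ae ?_
    filter_upwards [hvW, hW0, hW1] with y h1 h2 h3
    rw [h1, ENNReal.toReal_ofReal h2, min_eq_right h3]

end Pool.Agent.Helper6.NE
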